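import Pool.Agent.GW.Final

/-!
Sanity check for MP_27938c_co: the digraph with two vertices and `k` parallel arcs satisfies all
hypotheses, and one arc less is not a `k`-dijoin.
-/

namespace Pool.Agent.Helper95.Sanity27938c

open GW Relation

/-- `k` parallel arcs from `0` to `1` -/
def src (k : ℕ) : Fin k → Fin 2 := fun _ => 0
/-- `k` parallel arcs from `0` to `1` -/
def tgt (k : ℕ) : Fin k → Fin 2 := fun _ => 1

theorem acyclic (k : ℕ) (v : Fin 2) : ¬ TransGen (Arc (src k) (tgt k)) v v := by
  have h : ∀ x y, TransGen (Arc (src k) (tgt k)) x y → x = 0 ∧ y = 1 := by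
    intro x y hxy
    induction hxy with
    | single h =>
      obtain ⟨a, h1, h2⟩ := h
      exact ⟨h1.symm, h2.symm⟩
    | tail _ h ih =>
      obtain ⟨a, h1, h2⟩ := h
      exact ⟨ih.1, h2.symm⟩
  intro hv
  have := h v v hv
  rw [this.1] at this
  exact absurd this.2 (by decide)

theorem super_source (k : ℕ) (hk : 1 ≤ k) (w : Fin 2) :
    ReflTransGen (Arc (src k) (tgt k)) 0 w := by
  fin_cases w
  · exact ReflTransGen.refl
  · exact ReflTransGen.single ⟨⟨0, hk⟩, rfl, rfl⟩

theorem super_sink (k : ℕ) (hk : 1 ≤ k) (w : Fin 2) :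
    ReflTransGen (Arc (src k) (tgt k)) w 1 := by
  fin_cases w
  · exact ReflTransGen.single ⟨⟨0, hk⟩, rfl, rfl⟩
  · exact ReflTransGen.refl

/-- the only shore is the source; so `F` is a `k`-dijoin iff it has at least `k` arcs -/
theorem kdijoin_iff (k m : ℕ) (hk : 1 ≤ k) (F : Set (Fin k)) :
    KDijoin (src k) (tgt k) F m ↔ m ≤ F.ncard := by
  have hcut : ∀ U : Set (Fin 2), Shore (src k) (tgt k) U →
      F ∩ {a | src k a ∈ U ∧ tgt k a ∉ U} = F := by
    rintro U ⟨h1, h2, h3⟩
    have h4 : (1 : Fin 2) ∉ U := by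
      intro h
      apply h2
      have h0 : (0 : Fin 2) ∈ U := h3 ⟨0, hk⟩ h
      ext x
      fin_cases x
      · simpa using h0
      · simpa using h
    have h5 : (0 : Fin 2) ∈ U := by
      obtain ⟨x, hx⟩ := h1
      fin_cases x
      · simpa using hx
      · exact absurd hx h4
    ext a
    constructor
    · intro h
      exact h.1
    · intro h
      exact ⟨h, h5, h4⟩
  constructor
  · intro h
    have hS : Shore (src k) (tgt k) ({0} : Set (Fin 2)) := by
      refine ⟨⟨0, rfl⟩, ?_, fun a ha => ?_⟩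
      · intro h'
        have : (1 : Fin 2) ∈ ({0} : Set (Fin 2)) := h' ▸ Set.mem_univ _
        exact absurd this (by decide)
      · exact absurd (show (1 : Fin 2) ∈ ({0} : Set (Fin 2)) from ha) (by decide)
    have := h _ hS
    rwa [hcut _ hS] at this
  · intro h U hU
    rw [hcut U hU]
    exact h

end Pool.Agent.Helper95.Sanity27938c
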