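import Pool.Agent.Lib_MP_d5c33c_co.Defs

/-!
Sanity check for MP_d5c33c_co: the discrete configuration (all singletons) on any set is a
coherent configuration, so the structure is not vacuous.
-/

set_option autoImplicit false

namespace Pool.Agent.Helper95.SanityD5c33c

open Pool.Agent.Lib_MP_d5c33c_co

/-- the discrete coherent configuration -/
def discrete (X : Type*) : CoherentConfiguration X where
  S := Set.range fun e : X × X => ({e} : Set (X × X))
  isPartition := by
    constructor
    · rintro ⟨e, he⟩
      exact Set.singleton_ne_empty e he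
    · intro e
      refine ⟨{e}, ⟨⟨e, rfl⟩, rfl⟩, ?_⟩
      rintro b ⟨⟨f, rfl⟩, hb⟩
      have : e = f := hb
      rw [this]
  diagonal_union := by
    refine ⟨Set.range fun x : X => ({(x, x)} : Set (X × X)), ?_, ?_⟩
    · rintro _ ⟨x, rfl⟩
      exact ⟨(x, x), rfl⟩
    · ext ⟨x, y⟩
      constructor
      · rintro ⟨_, ⟨z, rfl⟩, h⟩
        have h' : (x, y) = (z, z) := h
        rw [Prod.mk.injEq] at h'
        show x = y
        rw [h'.1, h'.2]
      · intro h
        have h' : x = y := h
        subst h'
        exact ⟨_, ⟨x, rfl⟩, rfl⟩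
  transpose_mem := by
    rintro _ ⟨⟨x, y⟩, rfl⟩
    refine ⟨(y, x), ?_⟩
    ext ⟨u, v⟩
    show (u, v) = (y, x) ↔ (v, u) = (x, y)
    rw [Prod.mk.injEq, Prod.mk.injEq]
    tauto
  coherent := by
    rintro a _ b _ _ ⟨c, rfl⟩ e he f hf
    have h1 : e = c := he
    have h2 : f = c := hf
    rw [h1, h2]

/-- the hypotheses of the hand-in are satisfied, e.g. by the discrete configuration on two points -/
theorem sanity : ∃ _ : CoherentConfiguration (Fin 2), 2 ≤ Fintype.card (Fin 2) :=
  ⟨discrete (Fin 2), by simp⟩

end Pool.Agent.Helper95.SanityD5c33c
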